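import Pool.Agent.Helper52.SX.Goals2
import Pool.Agent.Helper63.JT.CKP
import Pool.Agent.Helper3.DT.PTL

/-!
# Project SX, packet PCV: the tuple of a circuit in polynomial time
-/

set_option autoImplicit false

namespace Pool.Agent.Helper63.SX

open Pool.Agent.Helper81.CC Pool.Agent.Helper78.DT Pool.Agent.Helper52.SX
open Pool.Agent.Helper78.JT (Clause CList Circuit size)

theorem two_pow_lg (N : ℕ) : 2 ^ lg N ≤ 4 * N + 4 := by
  unfold lg
  rcases Nat.eq_zero_or_pos N with h | h
  · subst h; simp
  · have := Nat.pow_log_le_self 2 h.ne'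
    rw [pow_add]
    omega

/-- **PCV.** The tuple in polynomial time. -/
theorem pcv (hpol : PolStmt) : PcvStmt := by
  intro K0
  have hsz : PolyTime fun z : Circuit => size z := Pool.Agent.Helper63.JT.pt_size
  refine ⟨hsz, ?_⟩
  have h0 : PolyTime fun _ : Circuit => (0 : ℕ) := by fun_prop
  have hlg : PolyTime fun z : Circuit => lg (size z) :=
    (Pool.Agent.Helper3.DT.ptl Circuit _ _ _ hsz h0 h0).1
  have hlen : PolyTime fun z : Circuit => z.2.1.length := by fun_prop
  have hm : PolyTime fun z : Circuit => min z.2.1.length (lg (size z)) :=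
    PolyTime.nat_min hlen hlg
  have hN : PolyTime fun z : Circuit => 4 * size z + 4 :=
    PolyTime.add (PolyTime.mul (by fun_prop) hsz) (by fun_prop)
  have h2 : PolyTime fun z : Circuit => 2 ^ (min z.2.1.length (lg (size z))) :=
    (Pool.Agent.Helper3.DT.ptl Circuit _ _ _ hN hm h0).2.2.2.2 fun z =>
      (Nat.pow_le_pow_right (by norm_num) (min_le_right _ _)).trans (two_pow_lg _)
  have h4 : PolyTime fun z : Circuit =>
      4 ^ (min z.2.1.length (lg (size z))) - 2 ^ (min z.2.1.length (lg (size z))) := by
    have h := PolyTime.sub (PolyTime.mul h2 h2) h2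
    refine h.congr fun z => ?_
    rw [← mul_pow, show 2 * 2 = 4 from rfl]
  have hp := hpol (Circuit × CList) (fun a => a.1.1) (fun a => size a.1) (fun a => a.2) K0
    (by fun_prop) (PolyTime.comp hsz (by fun_prop)) (by fun_prop)
  have hv : PolyTime fun z : Circuit => z.2.1.map (vls z.1 (K0 * lg (size z))) :=
    PolyTime.list_map (l := fun z : Circuit => z.2.1)
      (f := fun z f => vls z.1 (K0 * lg (size z)) f) (by fun_prop) hp.1
  have ho : PolyTime fun z : Circuit => z.2.1.map (ols z.1 (K0 * lg (size z))) :=
    PolyTime.list_map (l := fun z : Circuit => z.2.1)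
      (f := fun z f => ols z.1 (K0 * lg (size z)) f) (by fun_prop) hp.2
  have hr : PolyTime fun z : Circuit =>
      List.replicate (4 ^ (min z.2.1.length (lg (size z))) -
        2 ^ (min z.2.1.length (lg (size z)))) false ++ z.2.2 :=
    PolyTime.append (PolyTime.replicate h4 (by fun_prop)) (by fun_prop)
  exact PolyTime.pair (PolyTime.append hv ho) hr

end Pool.Agent.Helper63.SX
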